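import Pool.Agent.L7h59.NC.Def

/-! Project NC (MP_6374fb_al): products, `K₁`. -/

set_option autoImplicit false

open Matrix

namespace Pool.Agent.L7h46.NC

open Pool.Agent.L7h59.NC
open Pool.Agent.L7h59.TW (RFun k0 k1)
open Pool.Agent.Y69.FJ (K1 K1Rel mapGL)

section

variable {A : Type} [Ring A] {ι : Type} {A' : ι → Type} [∀ i, Ring (A' i)] (p : ∀ i, A →+* A' i)

theorem mat_inj (hp : Function.Bijective (fun (r : A) (i : ι) => p i r)) {n : ℕ}
    {M N : Matrix (Fin n) (Fin n) A} (h : ∀ j, M.map (p j) = N.map (p j)) : M = N := by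
  ext a b
  apply hp.1
  funext j
  exact congrFun (congrFun (h j) a) b

theorem mat_surj (hp : Function.Bijective (fun (r : A) (i : ι) => p i r)) {n : ℕ}
    (u : ∀ j, Matrix (Fin n) (Fin n) (A' j)) :
    ∃ M : Matrix (Fin n) (Fin n) A, ∀ j, M.map (p j) = u j := by
  choose r hr using fun (ab : Fin n × Fin n) => hp.2 (fun j => u j ab.1 ab.2)
  exact ⟨fun a b => r (a, b), fun j => by
    ext a b
    exact congrFun (hr (a, b)) j⟩

theorem map_one' {n : ℕ} {S T : Type} [Ring S] [Ring T] (f : S →+* T) :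
    (1 : Matrix (Fin n) (Fin n) S).map f = 1 := (f.mapMatrix).map_one

theorem map_mul' {n : ℕ} {S T : Type} [Ring S] [Ring T] (f : S →+* T)
    (M N : Matrix (Fin n) (Fin n) S) : (M * N).map f = M.map f * N.map f := (f.mapMatrix).map_mul M N

theorem gl_inj (hp : Function.Bijective (fun (r : A) (i : ι) => p i r)) {n : ℕ}
    {M N : (Matrix (Fin n) (Fin n) A)ˣ} (h : ∀ j, mapGL (p j) M = mapGL (p j) N) : M = N := by
  apply Units.ext
  apply mat_inj p hp
  intro j
  exact congrArg Units.val (h j)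

theorem gl_surj (hp : Function.Bijective (fun (r : A) (i : ι) => p i r)) {n : ℕ}
    (u : ∀ j, (Matrix (Fin n) (Fin n) (A' j))ˣ) :
    ∃ M : (Matrix (Fin n) (Fin n) A)ˣ, ∀ j, mapGL (p j) M = u j := by
  obtain ⟨M, hM⟩ := mat_surj p hp (fun j => (u j : Matrix (Fin n) (Fin n) (A' j)))
  obtain ⟨N, hN⟩ := mat_surj p hp (fun j => ((u j)⁻¹ : (Matrix (Fin n) (Fin n) (A' j))ˣ).val)
  have h1 : M * N = 1 := mat_inj p hp (fun j => by
    rw [map_mul', hM, hN, map_one', Units.mul_inv])
  have h2 : N * M = 1 := mat_inj p hp (fun j => by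
    rw [map_mul', hM, hN, map_one', Units.inv_mul])
  exact ⟨⟨M, N, h1, h2⟩, fun j => Units.ext (hM j)⟩

theorem mapGL_mul {S T : Type} [Ring S] [Ring T] (f : S →+* T) {n : ℕ}
    (M N : (Matrix (Fin n) (Fin n) S)ˣ) : mapGL f (M * N) = mapGL f M * mapGL f N := map_mul _ _ _

theorem mapGL_one {S T : Type} [Ring S] [Ring T] (f : S →+* T) {n : ℕ} :
    mapGL f (1 : (Matrix (Fin n) (Fin n) S)ˣ) = 1 := map_one _

theorem mapGL_comp {S T U : Type} [Ring S] [Ring T] [Ring U] (f : S →+* T) (g : T →+* U) {n : ℕ}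
    (M : (Matrix (Fin n) (Fin n) S)ˣ) : mapGL g (mapGL f M) = mapGL (g.comp f) M := rfl

/-- the matrix with given components -/
noncomputable def glue (hp : Function.Bijective (fun (r : A) (i : ι) => p i r)) {n : ℕ}
    (u : ∀ j, (Matrix (Fin n) (Fin n) (A' j))ˣ) : (Matrix (Fin n) (Fin n) A)ˣ :=
  (gl_surj p hp u).choose

theorem glue_spec (hp : Function.Bijective (fun (r : A) (i : ι) => p i r)) {n : ℕ}
    (u : ∀ j, (Matrix (Fin n) (Fin n) (A' j))ˣ) (j : ι) : mapGL (p j) (glue p hp u) = u j :=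
  (gl_surj p hp u).choose_spec j

theorem glue_mul (hp : Function.Bijective (fun (r : A) (i : ι) => p i r)) {n : ℕ}
    (u v : ∀ j, (Matrix (Fin n) (Fin n) (A' j))ˣ) :
    glue p hp (u * v) = glue p hp u * glue p hp v := by
  apply gl_inj p hp
  intro j
  rw [mapGL_mul, glue_spec, glue_spec, glue_spec]
  rfl

theorem glue_one (hp : Function.Bijective (fun (r : A) (i : ι) => p i r)) {n : ℕ} :
    glue p hp (1 : ∀ j, (Matrix (Fin n) (Fin n) (A' j))ˣ) = 1 := by
  apply gl_inj p hp
  intro j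
  rw [glue_spec, mapGL_one]
  rfl

theorem map_block {S T : Type} [Ring S] [Ring T] (f : S →+* T) {n : ℕ}
    (M : Matrix (Fin n) (Fin n) S) :
    (Matrix.reindex finSumFinEquiv finSumFinEquiv
      (Matrix.fromBlocks M 0 0 (1 : Matrix (Fin 1) (Fin 1) S))).map f =
    Matrix.reindex finSumFinEquiv finSumFinEquiv
      (Matrix.fromBlocks (M.map f) 0 0 (1 : Matrix (Fin 1) (Fin 1) T)) := by
  ext i j
  show f ((Matrix.fromBlocks M 0 0 1)
    (finSumFinEquiv.symm i) (finSumFinEquiv.symm j)) =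
    (Matrix.fromBlocks (M.map f) 0 0 1)
    (finSumFinEquiv.symm i) (finSumFinEquiv.symm j)
  rcases finSumFinEquiv.symm i with a | a <;> rcases finSumFinEquiv.symm j with b | b
  · rfl
  · exact map_zero f
  · exact map_zero f
  · rw [Matrix.fromBlocks_apply₂₂, Matrix.fromBlocks_apply₂₂, Subsingleton.elim a b,
      Matrix.one_apply_eq, Matrix.one_apply_eq, map_one]

theorem block_one {S : Type} [Ring S] {n : ℕ} :
    Matrix.reindex finSumFinEquiv finSumFinEquiv
      (Matrix.fromBlocks (1 : Matrix (Fin n) (Fin n) S) 0 0 (1 : Matrix (Fin 1) (Fin 1) S)) = 1 := by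
  rw [Matrix.fromBlocks_one, Matrix.reindex_apply, Matrix.submatrix_one_equiv]

variable [DecidableEq ι]

/-- `M` at `i`, `1` elsewhere -/
noncomputable def ins (hp : Function.Bijective (fun (r : A) (i : ι) => p i r)) (i : ι) {n : ℕ}
    (M : (Matrix (Fin n) (Fin n) (A' i))ˣ) : (Matrix (Fin n) (Fin n) A)ˣ :=
  glue p hp (Pi.mulSingle i M)

theorem ins_mul (hp : Function.Bijective (fun (r : A) (i : ι) => p i r)) (i : ι) {n : ℕ}
    (M N : (Matrix (Fin n) (Fin n) (A' i))ˣ) :
    ins p hp i (M * N) = ins p hp i M * ins p hp i N := by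
  unfold ins
  rw [Pi.mulSingle_mul, glue_mul]

theorem ins_spec (hp : Function.Bijective (fun (r : A) (i : ι) => p i r)) (i : ι) {n : ℕ}
    (M : (Matrix (Fin n) (Fin n) (A' i))ˣ) (j : ι) :
    mapGL (p j) (ins p hp i M) = Pi.mulSingle (M := fun j => (Matrix (Fin n) (Fin n) (A' j))ˣ) i M j :=
  glue_spec p hp _ j

/-- `[M] ↦ [ins M]` -/
noncomputable def insPre (hp : Function.Bijective (fun (r : A) (i : ι) => p i r)) (i : ι) :
    FreeAbelianGroup (Σ n : ℕ, (Matrix (Fin n) (Fin n) (A' i))ˣ) →+ K1 A :=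
  FreeAbelianGroup.lift fun x => K1.mk (ins p hp i x.2)

theorem ins_stab (hp : Function.Bijective (fun (r : A) (i : ι) => p i r)) (i : ι) {n : ℕ}
    (M : (Matrix (Fin n) (Fin n) (A' i))ˣ) (N : (Matrix (Fin (n + 1)) (Fin (n + 1)) (A' i))ˣ)
    (hN : (N : Matrix (Fin (n + 1)) (Fin (n + 1)) (A' i)) =
          Matrix.reindex finSumFinEquiv finSumFinEquiv
            (Matrix.fromBlocks (M : Matrix (Fin n) (Fin n) (A' i)) 0 0
              (1 : Matrix (Fin 1) (Fin 1) (A' i)))) :
    (ins p hp i N : Matrix (Fin (n + 1)) (Fin (n + 1)) A) =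
          Matrix.reindex finSumFinEquiv finSumFinEquiv
            (Matrix.fromBlocks (ins p hp i M : Matrix (Fin n) (Fin n) A) 0 0
              (1 : Matrix (Fin 1) (Fin 1) A)) := by
  apply mat_inj p hp
  intro j
  rw [map_block]
  have h1 : (ins p hp i N : Matrix (Fin (n + 1)) (Fin (n + 1)) A).map (p j) =
      (Pi.mulSingle (M := fun j => (Matrix (Fin (n + 1)) (Fin (n + 1)) (A' j))ˣ) i N j).val :=
    congrArg Units.val (ins_spec p hp i N j)
  have h2 : (ins p hp i M : Matrix (Fin n) (Fin n) A).map (p j) =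
      (Pi.mulSingle (M := fun j => (Matrix (Fin n) (Fin n) (A' j))ˣ) i M j).val :=
    congrArg Units.val (ins_spec p hp i M j)
  rw [h1, h2]
  by_cases hj : j = i
  · subst hj
    rw [Pi.mulSingle_eq_same, Pi.mulSingle_eq_same, hN]
  · rw [Pi.mulSingle_eq_of_ne hj, Pi.mulSingle_eq_of_ne hj, Units.val_one, Units.val_one, block_one]

theorem ins_aux (hp : Function.Bijective (fun (r : A) (i : ι) => p i r)) (i : ι) :
    AddSubgroup.closure (K1Rel (A' i)) ≤ (insPre p hp i).ker := by
  rw [AddSubgroup.closure_le]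
  rintro x (⟨n, M, N, rfl⟩ | ⟨n, M, N, hN, rfl⟩)
  · show insPre p hp i _ = 0
    rw [map_sub, map_add]
    unfold insPre
    rw [FreeAbelianGroup.lift_apply_of, FreeAbelianGroup.lift_apply_of,
      FreeAbelianGroup.lift_apply_of]
    have h : ins p hp i (M * N) = ins p hp i M * ins p hp i N := ins_mul p hp i M N
    rw [h]
    exact K1.mk_mul _ _
  · show insPre p hp i _ = 0
    rw [map_sub]
    unfold insPre
    rw [FreeAbelianGroup.lift_apply_of, FreeAbelianGroup.lift_apply_of]
    exact K1.mk_stab _ _ (ins_stab p hp i M N hN)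

/-- the map of `K₁` -/
noncomputable def insK (hp : Function.Bijective (fun (r : A) (i : ι) => p i r)) (i : ι) :
    K1 (A' i) →+ K1 A :=
  QuotientAddGroup.lift (AddSubgroup.closure (K1Rel (A' i))) (insPre p hp i) (ins_aux p hp i)

theorem insK_mk (hp : Function.Bijective (fun (r : A) (i : ι) => p i r)) (i : ι) {n : ℕ}
    (M : (Matrix (Fin n) (Fin n) (A' i))ˣ) : insK p hp i (K1.mk M) = K1.mk (ins p hp i M) := by
  show QuotientAddGroup.lift _ _ _ (QuotientAddGroup.mk _) = _
  rw [QuotientAddGroup.lift_mk, insPre, FreeAbelianGroup.lift_apply_of]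

theorem mk_mul' {S : Type} [Ring S] {n : ℕ} (M N : (Matrix (Fin n) (Fin n) S)ˣ) :
    K1.mk (M * N) = K1.mk M + K1.mk N := sub_eq_zero.1 (K1.mk_mul M N)

theorem mk_one' {S : Type} [Ring S] {n : ℕ} : K1.mk (1 : (Matrix (Fin n) (Fin n) S)ˣ) = 0 := by
  have h := mk_mul' (1 : (Matrix (Fin n) (Fin n) S)ˣ) 1
  rw [mul_one] at h
  exact left_eq_add.1 h

theorem sum_ins [Fintype ι] (hp : Function.Bijective (fun (r : A) (i : ι) => p i r)) {n : ℕ}
    (M : (Matrix (Fin n) (Fin n) A)ˣ) :
    ∑ i, K1.mk (ins p hp i (mapGL (p i) M)) = K1.mk M := by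
  have key : ∀ s : Finset ι, ∑ i ∈ s, K1.mk (ins p hp i (mapGL (p i) M)) =
      K1.mk (glue p hp (fun j => if j ∈ s then mapGL (p j) M else 1)) := by
    intro s
    induction s using Finset.induction_on with
    | empty =>
      rw [Finset.sum_empty]
      have : (fun j => if j ∈ (∅ : Finset ι) then mapGL (p j) M else 1) =
          (1 : ∀ j, (Matrix (Fin n) (Fin n) (A' j))ˣ) := by
        funext j
        rw [if_neg (Finset.notMem_empty j)]
        rfl
      rw [this, glue_one, mk_one']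
    | insert i s hi ih =>
      rw [Finset.sum_insert hi, ih, ← mk_mul']
      congr 1
      apply gl_inj p hp
      intro j
      rw [mapGL_mul, glue_spec, glue_spec, ins_spec]
      by_cases hj : j = i
      · subst hj
        rw [Pi.mulSingle_eq_same, if_neg hi, if_pos (Finset.mem_insert_self _ _), mul_one]
      · rw [Pi.mulSingle_eq_of_ne hj, one_mul]
        by_cases hs : j ∈ s
        · rw [if_pos hs, if_pos (Finset.mem_insert_of_mem hs)]
        · rw [if_neg hs, if_neg (by rw [Finset.mem_insert]; tauto)]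
  rw [key Finset.univ]
  congr 1
  apply gl_inj p hp
  intro j
  rw [glue_spec, if_pos (Finset.mem_univ j)]

theorem k1_ind {S : Type} [Ring S] {P : K1 S → Prop} (h : ∀ (n : ℕ) (M : (Matrix (Fin n) (Fin n) S)ˣ), P (K1.mk M))
    (h0 : P 0) (hneg : ∀ x, P x → P (-x)) (hadd : ∀ x y, P x → P y → P (x + y)) (x : K1 S) : P x := by
  obtain ⟨y, rfl⟩ := QuotientAddGroup.mk'_surjective (AddSubgroup.closure (K1Rel S)) x
  induction y using FreeAbelianGroup.induction_on with
  | zero => rw [map_zero]; exact h0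
  | of a => exact h a.1 a.2
  | neg a ha => rw [map_neg]; exact hneg _ ha
  | add a b ha hb => rw [map_add]; exact hadd _ _ ha hb

theorem sumK [Fintype ι] (hp : Function.Bijective (fun (r : A) (i : ι) => p i r)) (x : K1 A) :
    ∑ i, insK p hp i (K1.map (p i) x) = x := by
  refine k1_ind (P := fun x => ∑ i, insK p hp i (K1.map (p i) x) = x) ?_ ?_ ?_ ?_ x
  · intro n M
    simp only [K1.map_mk, insK_mk]
    exact sum_ins p hp M
  · simp only [map_zero, Finset.sum_const_zero]
  · intro x hx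
    simp only [map_neg, Finset.sum_neg_distrib, hx]
  · intro x y hx hy
    simp only [map_add, Finset.sum_add_distrib, hx, hy]

end

theorem k1_hom_ext {S : Type} [Ring S] {T : Type} [AddCommGroup T] {f g : K1 S →+ T}
    (h : ∀ (n : ℕ) (M : (Matrix (Fin n) (Fin n) S)ˣ), f (K1.mk M) = g (K1.mk M)) (x : K1 S) :
    f x = g x := by
  refine k1_ind (P := fun x => f x = g x) h ?_ ?_ ?_ x
  · rw [map_zero, map_zero]
  · intro x hx; rw [map_neg, map_neg, hx]
  · intro x y hx hy; rw [map_add, map_add, hx, hy]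

theorem bij_ma {R ι : Type} [Ring R] [Fintype ι] {R' : ι → Type} [∀ i, Ring (R' i)]
    (π : ∀ i, R →+* R' i) (hπ : Function.Bijective (fun (r : R) (i : ι) => π i r)) (H : Type)
    [Group H] : Function.Bijective
      (fun (r : MonoidAlgebra R H) (i : ι) => MonoidAlgebra.mapRingHom H (π i) r) := by
  classical
  constructor
  · intro x y h
    ext m
    apply hπ.1
    funext i
    have := congrArg (fun z => z.coeff m) (congrFun h i)
    simpa using this
  · intro u
    choose r hr using fun m : H => hπ.2 (fun i => (u i).coeff m)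
    refine ⟨MonoidAlgebra.ofCoeff (Finsupp.onFinset
      (Finset.univ.biUnion fun i => (u i).coeff.support) r ?_), ?_⟩
    · intro m hm
      rw [Finset.mem_biUnion]
      by_contra hcon
      apply hm
      apply hπ.1
      show (fun i => π i (r m)) = (fun i => π i 0)
      rw [show (fun i => π i (r m)) = fun i => (u i).coeff m from hr m]
      funext i
      rw [map_zero]
      by_contra hne
      exact hcon ⟨i, Finset.mem_univ _, Finsupp.mem_support_iff.2 hne⟩
    · funext i
      ext m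
      rw [MonoidAlgebra.coeff_mapRingHom, MonoidAlgebra.coeff_ofCoeff, Finsupp.onFinset_apply]
      exact congrFun (hr m) i

/-- PART PRD1. -/
theorem s_PRD1 : S_PRD1 := by
  intro R ι _ _ _ R' _ π hπ
  refine ⟨fun i => ⟨fun H _ => insK (fun j => MonoidAlgebra.mapRingHom H (π j)) (bij_ma π hπ H) i,
    ?_⟩, ?_⟩
  · intro H L _ _ φ x
    have := k1_hom_ext (f := (insK (fun j => MonoidAlgebra.mapRingHom L (π j)) (bij_ma π hπ L) i).comp
      (K1.map (MonoidAlgebra.mapDomainRingHom (R' i) φ)))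
      (g := (K1.map (MonoidAlgebra.mapDomainRingHom R φ)).comp
        (insK (fun j => MonoidAlgebra.mapRingHom H (π j)) (bij_ma π hπ H) i)) ?_ x
    · exact this
    · intro n M
      rw [AddMonoidHom.comp_apply, AddMonoidHom.comp_apply, K1.map_mk, insK_mk, insK_mk, K1.map_mk]
      congr 1
      apply gl_inj _ (bij_ma π hπ L)
      intro j
      have e1 := ins_spec (fun j => MonoidAlgebra.mapRingHom L (π j)) (bij_ma π hπ L) i
        (mapGL (MonoidAlgebra.mapDomainRingHom (R' i) φ) M) j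
      have e2 : mapGL (MonoidAlgebra.mapRingHom L (π j)) (mapGL (MonoidAlgebra.mapDomainRingHom R φ)
          (ins (fun j => MonoidAlgebra.mapRingHom H (π j)) (bij_ma π hπ H) i M)) =
          mapGL (MonoidAlgebra.mapDomainRingHom (R' j) φ) (mapGL (MonoidAlgebra.mapRingHom H (π j))
          (ins (fun j => MonoidAlgebra.mapRingHom H (π j)) (bij_ma π hπ H) i M)) := by
        rw [mapGL_comp, MonoidAlgebra.mapRingHom_comp_mapDomainRingHom, ← mapGL_comp]
      have e3 := ins_spec (fun j => MonoidAlgebra.mapRingHom H (π j)) (bij_ma π hπ H) i M j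
      refine e1.trans ?_
      rw [e2]
      refine Eq.trans ?_ (congrArg (mapGL (MonoidAlgebra.mapDomainRingHom (R' j) φ)) e3.symm)
      by_cases hj : j = i
      · subst hj
        rw [Pi.mulSingle_eq_same, Pi.mulSingle_eq_same]
      · rw [Pi.mulSingle_eq_of_ne hj, Pi.mulSingle_eq_of_ne hj, mapGL_one]
  · intro H _ x
    exact sumK (fun j => MonoidAlgebra.mapRingHom H (π j)) (bij_ma π hπ H) x

end Pool.Agent.L7h46.NC
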